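import Pool.Agent.H66.FA.T

/-!
Board fab_modules: row INV, the derivative of an inverse matrix.
-/

set_option autoImplicit false

namespace Pool.Agent.H57.FA

open scoped Matrix
open Pool.Agent.H66.FA

theorem inv_det {n : ℕ} (A : ℝ → Matrix (Fin n) (Fin n) ℝ) (t : ℝ)
    (h : ∀ i j, DifferentiableAt ℝ (fun s => A s i j) t) :
    DifferentiableAt ℝ (fun s => (A s).det) t := by
  have e : (fun s => (A s).det) = fun s => ∑ σ : Equiv.Perm (Fin n),
      ((Equiv.Perm.sign σ : ℤ) : ℝ) * ∏ i, A s (σ i) i := by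
    funext s
    exact Matrix.det_apply' _
  rw [e]
  refine DifferentiableAt.fun_sum fun σ _ => ?_
  refine (differentiableAt_const _).mul ?_
  exact DifferentiableAt.fun_finsetProd fun i _ => h _ _

theorem pf_INV : T_INV := by
  intro n M M' t hM hd
  have hdiff : ∀ i j, DifferentiableAt ℝ (fun s => M s i j) t := fun i j =>
    (hM i j).differentiableAt
  have hdet := inv_det M t hdiff
  have hadj : ∀ i j, DifferentiableAt ℝ (fun s => (M s).adjugate i j) t := by
    intro i j
    have e : (fun s => (M s).adjugate i j) =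
        fun s => ((M s).updateRow j (Pi.single i 1)).det := by
      funext s
      exact Matrix.adjugate_apply _ _ _
    rw [e]
    refine inv_det _ t fun a b => ?_
    by_cases ha : a = j
    · subst ha
      simp only [Matrix.updateRow_self]
      exact differentiableAt_const _
    · simp only [Matrix.updateRow_ne ha]
      exact hdiff a b
  have hinv : ∀ i j, DifferentiableAt ℝ (fun s => (M s)⁻¹ i j) t := by
    intro i j
    have e : (fun s => (M s)⁻¹ i j) = fun s => ((M s).det)⁻¹ * (M s).adjugate i j := by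
      funext s
      rw [Matrix.inv_def, Ring.inverse_eq_inv', Matrix.smul_apply, smul_eq_mul]
    rw [e]
    exact (hdet.inv hd).mul (hadj i j)
  set D : Matrix (Fin n) (Fin n) ℝ := Matrix.of fun i j => deriv (fun s => (M s)⁻¹ i j) t
    with hD
  have hDd : ∀ i j, HasDerivAt (fun s => (M s)⁻¹ i j) (D i j) t := fun i j =>
    (hinv i j).hasDerivAt
  have hne : ∀ᶠ s in nhds t, (M s).det ≠ 0 := hdet.continuousAt.eventually_ne hd
  have hkey : D * M t + (M t)⁻¹ * M' = 0 := by
    ext i j
    have h1 : HasDerivAt (fun s => ∑ l, (M s)⁻¹ i l * M s l j)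
        (∑ l, (D i l * M t l j + (M t)⁻¹ i l * M' l j)) t :=
      HasDerivAt.fun_sum fun l _ => (hDd i l).mul (hM l j)
    have h2 : (fun s => ∑ l, (M s)⁻¹ i l * M s l j) =ᶠ[nhds t]
        fun _ => (1 : Matrix (Fin n) (Fin n) ℝ) i j := by
      filter_upwards [hne] with s hs
      have h3 := Matrix.nonsing_inv_mul (M s) (isUnit_iff_ne_zero.2 hs)
      rw [← h3, Matrix.mul_apply]
    have h4 := (h2.hasDerivAt_iff (f' := _)).1 h1
    have h5 := h4.unique (hasDerivAt_const t _)
    rw [Matrix.add_apply, Matrix.mul_apply, Matrix.mul_apply, ← Finset.sum_add_distrib, h5,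
      Matrix.zero_apply]
  have hfin : D = -((M t)⁻¹ * M' * (M t)⁻¹) := by
    have h1 := Matrix.mul_nonsing_inv (M t) (isUnit_iff_ne_zero.2 hd)
    have h2 : (D * M t + (M t)⁻¹ * M') * (M t)⁻¹ = 0 := by rw [hkey, Matrix.zero_mul]
    rw [Matrix.add_mul, Matrix.mul_assoc, h1, Matrix.mul_one] at h2
    exact eq_neg_of_add_eq_zero_left h2
  intro i j
  have h := hDd i j
  rw [hfin] at h
  exact h

end Pool.Agent.H57.FA
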