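import Pool.Agent.H66.FA.T

/-!
Board fab_modules: row LIN, left-invariant metrics.
-/

set_option autoImplicit false

namespace Pool.Agent.H57.FA

open scoped Matrix
open Pool.Agent.H66.FA Pool.Agent.H63.Fins

theorem pf_LIN : T_LIN := by
  intro m A E F hE hF x y
  have hmul : ∀ g : V (m + 1), mul A g = fun z => g + E (g 0) z := by
    intro g
    funext z
    rw [hE]
    unfold mul
    funext i
    refine Fin.cases ?_ (fun i => ?_) i
    · simp
    · simp [Fin.tail]
  have hd : ∀ g z : V (m + 1), fderiv ℝ (mul A g) z = E (g 0) := by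
    intro g z
    rw [hmul g, fderiv_const_add, ContinuousLinearMap.fderiv]
  set g : V (m + 1) := Fin.cons (-x 0) (-(NormedSpace.exp ((-x 0) • A) *ᵥ Fin.tail x)) with hg
  have hg0 : g 0 = -x 0 := by rw [hg, Fin.cons_zero]
  have hx : mul A g x = 0 := by
    unfold mul
    funext i
    refine Fin.cases ?_ (fun i => ?_) i
    · rw [Fin.cons_zero, hg0, neg_add_cancel, Pi.zero_apply]
    · rw [Fin.cons_succ, hg0, hg, Fin.tail_cons, neg_add_cancel, Pi.zero_apply, Pi.zero_apply]
  have h := hF g x y
  rw [hx, hd, hg0] at h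
  exact h.symm

end Pool.Agent.H57.FA
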